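import Pool.Agent.Lib.MP_598a87_lc.Never

/-!
# The cofinality of the continuum and the dominating number
-/

namespace NeverCard

open Set
open scoped Cardinal Ordinal

/-- The dominating number is `2 ^ ℵ₀`: every family of functions `ℕ → ℕ` which dominates all functions modulo finite
sets has at least `2 ^ ℵ₀` members. -/
def DEqC : Prop :=
  ∀ F : Set (ℕ → ℕ), (∀ f : ℕ → ℕ, ∃ g ∈ F, ∀ᶠ n in Filter.atTop, f n ≤ g n) → 2 ^ ℵ₀ ≤ #F

theorem dom_lt_of_cof {I : Type} (hI : ℵ₀ ≤ #I) (hc : (𝔠 : Cardinal.{0}).ord.cof ≤ #I) (hD : Dom 𝔠 I) :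
    ∃ lam < (𝔠 : Cardinal.{0}), Dom lam I := by
  classical
  obtain ⟨P, F, hP, hF⟩ := hD
  rcases hP.lt_or_eq with hP | hP
  · exact ⟨#P, hP, P, F, le_rfl, hF⟩
  obtain ⟨hl, hw, hP'⟩ := Cardinal.exists_ord_eq_type_lt P
  rw [← hP, hP', Ordinal.cof_type] at hc
  obtain ⟨s, hs0, hs'⟩ := Order.exists_cof_eq P
  rw [← hs'] at hc
  have h1 : #(s × I) ≤ #I := by
    rw [Cardinal.mk_prod, Cardinal.lift_id, Cardinal.lift_id]
    exact Cardinal.mul_le_of_le hI hc le_rfl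
  obtain ⟨e⟩ := h1
  by_contra hcon
  push Not at hcon
  have h2 : ∀ t : s, ∃ f : I → ℕ, ∀ p ≤ t.1, ∃ i, F p (e (t, i)) < f i := by
    intro t
    by_contra h3
    push Not at h3
    have h4 : #(Iic t.1) < 𝔠 := by
      rw [← hP]
      exact mk_Iic_lt' (hP ▸ Cardinal.aleph0_le_continuum) hP' t.1
    refine hcon _ h4 ⟨Iic t.1, fun p i => F p.1 (e (t, i)), le_rfl, fun f => ?_⟩
    obtain ⟨p, hp, hpf⟩ := h3 f
    exact ⟨⟨p, hp⟩, hpf⟩
  choose f hf using h2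
  obtain ⟨p, hp⟩ := hF (Function.extend e (fun q => f q.1 q.2) 0)
  obtain ⟨t, ht, hpt⟩ := hs0 p
  obtain ⟨i, hi⟩ := hf ⟨t, ht⟩ p hpt
  have h5 := hp (e (⟨t, ht⟩, i))
  rw [e.injective.extend_apply] at h5
  exact absurd hi (not_lt.2 h5)

/-- Some set of at most `κ` points of `2^ω` has a complement which is not the union of fewer than `2 ^ ℵ₀` closed sets. -/
def Out (κ : Cardinal.{0}) : Prop :=
  ∃ Z : Set (ℕ → Bool), #Z ≤ κ ∧
    ∀ 𝒦 : Set (Set (ℕ → Bool)), (∀ K ∈ 𝒦, IsClosed K) → ⋃₀ 𝒦 = Zᶜ → 2 ^ ℵ₀ ≤ #𝒦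

theorem out_of_d (hd : DEqC) : Out ℵ₀ := by
  classical
  refine ⟨range fun s : Finset ℕ => fun n => decide (n ∈ s), Cardinal.le_aleph0_iff_set_countable.2 (countable_range _), ?_⟩
  intro 𝒦 hK hU
  have h1 : ∀ K : 𝒦, ∀ n : ℕ, ∃ m : ℕ, ∀ y ∈ K.1, ∃ i, n ≤ i ∧ i < m ∧ y i = true := by
    intro K n
    have hc : IsCompact K.1 := (hK K.1 K.2).isCompact
    have hcov : K.1 ⊆ ⋃ m : ℕ, {y : ℕ → Bool | ∃ i ∈ {i | n ≤ i ∧ i < m}, y i = true} := by
      intro y hy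
      have hy' : y ∈ ⋃₀ 𝒦 := ⟨K.1, K.2, hy⟩
      rw [hU] at hy'
      by_contra h2
      refine hy' ⟨(Finset.range n).filter fun i => y i = true, ?_⟩
      funext i
      by_cases hi : i < n
      · by_cases hyi : y i = true
        · rw [hyi]
          simp [hi, hyi]
        · rw [Bool.not_eq_true] at hyi
          rw [hyi]
          simp [hyi]
      · have h3 : y i = false := by
          by_contra h4
          rw [Bool.not_eq_false] at h4
          exact h2 (mem_iUnion.2 ⟨i + 1, i, ⟨not_lt.1 hi, Nat.lt_succ_self i⟩, h4⟩)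
        rw [h3]
        simp [hi]
    obtain ⟨m, hm⟩ := hc.elim_directed_cover _ (fun m => open_hit _) hcov (by
      intro a b
      refine ⟨max a b, ?_, ?_⟩
      · rintro y ⟨i, ⟨h3, h4⟩, h5⟩
        exact ⟨i, ⟨h3, lt_of_lt_of_le h4 (le_max_left _ _)⟩, h5⟩
      · rintro y ⟨i, ⟨h3, h4⟩, h5⟩
        exact ⟨i, ⟨h3, lt_of_lt_of_le h4 (le_max_right _ _)⟩, h5⟩)
    refine ⟨m, fun y hy => ?_⟩
    obtain ⟨i, ⟨h3, h4⟩, h5⟩ := hm hy
    exact ⟨i, h3, h4, h5⟩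
  choose g hg using h1
  let G : 𝒦 → ℕ → ℕ := fun K k => Nat.rec (motive := fun _ => ℕ) (g K 0) (fun _ r => (Finset.range (r + 2)).sup (g K)) k
  have h2 := hd (range G) fun f => by
    let a : ℕ → ℕ := fun k => Nat.rec (motive := fun _ => ℕ) (f 0) (fun j r => r + f (j + 1) + 1) k
    have ha : ∀ k, a (k + 1) = a k + f (k + 1) + 1 := fun _ => rfl
    have hmono : StrictMono a := strictMono_nat_of_lt_succ fun k => by
      rw [ha]
      omega
    have hfa : ∀ k, f k ≤ a k := by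
      intro k
      cases k with
      | zero => exact le_rfl
      | succ k =>
        rw [ha]
        omega
    let y : ℕ → Bool := chi (range a)
    have hy : y ∈ ⋃₀ 𝒦 := by
      rw [hU]
      rintro ⟨s, hs⟩
      obtain ⟨N, hN⟩ := s.finite_toSet.bddAbove
      have h3 : y (a (N + 1)) = true := (chi_iff (range a) _).2 ⟨N + 1, rfl⟩
      rw [← hs] at h3
      have h4 : a (N + 1) ∈ s := of_decide_eq_true h3
      have h5 := hN h4
      have h6 := hmono.le_apply (x := N + 1)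
      omega
    obtain ⟨K, hKK, hyK⟩ := hy
    refine ⟨G ⟨K, hKK⟩, ⟨_, rfl⟩, Filter.Eventually.of_forall fun k => (hfa k).trans ?_⟩
    induction k with
    | zero =>
      obtain ⟨i, _, h4, h5⟩ := hg ⟨K, hKK⟩ 0 y hyK
      obtain ⟨l, hl⟩ := (chi_iff (range a) i).1 h5
      have h6 := hmono.monotone (Nat.zero_le l)
      have h7 : G ⟨K, hKK⟩ 0 = g ⟨K, hKK⟩ 0 := rfl
      omega
    | succ k ih =>
      obtain ⟨i, h3, h4, h5⟩ := hg ⟨K, hKK⟩ (a k + 1) y hyK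
      obtain ⟨l, hl⟩ := (chi_iff (range a) i).1 h5
      have h6 : k < l := by
        by_contra h8
        have h9 := hmono.monotone (not_lt.1 h8)
        omega
      have h7 := hmono.monotone h6
      have h8 : G ⟨K, hKK⟩ (k + 1) = (Finset.range (G ⟨K, hKK⟩ k + 2)).sup (g ⟨K, hKK⟩) := rfl
      have h9 : g ⟨K, hKK⟩ (a k + 1) ≤ (Finset.range (G ⟨K, hKK⟩ k + 2)).sup (g ⟨K, hKK⟩) :=
        Finset.le_sup (f := g ⟨K, hKK⟩) (Finset.mem_range.2 (by omega))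
      rw [Nat.succ_eq_add_one] at h7
      omega
  exact h2.trans Cardinal.mk_range_le

theorem lt_cof_of_delta {κ : Cardinal.{0}} (hd : Out κ) {X : Set (ℕ → Bool)} (h0 : ℵ₀ ≤ #X) (hκ : κ ≤ #X) (hX : IsDelta X) :
    #X < ((2 : Cardinal.{0}) ^ ℵ₀).ord.cof := by
  by_contra hcon
  rw [Cardinal.two_power_aleph0] at hcon
  obtain ⟨lam, hlam, hD⟩ := dom_lt_of_cof h0 (not_lt.1 hcon) (dom_of_delta hX)
  obtain ⟨Z, hZ, h1⟩ := hd
  obtain ⟨e⟩ := hZ.trans hκ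
  obtain ⟨P, F, hP, hF⟩ := hD.of_inj e e.injective
  have h2 := h1 (range fun p : P => {y : ℕ → Bool | ∀ z : Z, ∃ n ≤ F p z, y n ≠ z.1 n}) ?_ ?_
  · rw [Cardinal.two_power_aleph0] at h2
    exact absurd ((h2.trans Cardinal.mk_range_le).trans hP) (not_le.2 hlam)
  · rintro _ ⟨p, rfl⟩
    have h3 : {y : ℕ → Bool | ∀ z : Z, ∃ n ≤ F p z, y n ≠ z.1 n} =
        ⋂ z : Z, ⋃ n ∈ Iic (F p z), {y : ℕ → Bool | y n ≠ z.1 n} := by
      ext y
      simp only [mem_ofPred_eq, mem_iInter, mem_iUnion, mem_Iic, exists_prop]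
    change IsClosed {y : ℕ → Bool | ∀ z : Z, ∃ n ≤ F p z, y n ≠ z.1 n}
    rw [h3]
    refine isClosed_iInter fun z => (finite_Iic _).isClosed_biUnion fun n _ => ?_
    have hc : Continuous fun y : ℕ → Bool => y n := continuous_apply n
    exact (isClosed_discrete ({z.1 n}ᶜ : Set Bool)).preimage hc
  · ext y
    constructor
    · rintro ⟨_, ⟨p, rfl⟩, hy⟩ hyZ
      obtain ⟨n, _, hn⟩ := hy ⟨y, hyZ⟩
      exact hn rfl
    · intro hy
      have h3 : ∀ z : Z, ∃ n, y n ≠ z.1 n := by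
        intro z
        by_contra h4
        push Not at h4
        exact hy ((funext h4 : y = z.1) ▸ z.2)
      choose f hf using h3
      obtain ⟨p, hp⟩ := hF f
      exact ⟨_, ⟨p, rfl⟩, fun z => ⟨f z, hp z, hf z⟩⟩

theorem cof_continuum_ge : ℵ₀ ≤ ((2 : Cardinal.{0}) ^ ℵ₀).ord.cof := by
  rw [Ordinal.aleph0_le_cof_iff, Ordinal.one_lt_cof_iff]
  refine Cardinal.isSuccLimit_ord ?_
  rw [Cardinal.two_power_aleph0]
  exact Cardinal.aleph0_le_continuum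

theorem never_le_cof {κ : Cardinal.{0}} (hd : Out κ) :
    va ≤ max κ ((2 : Cardinal.{0}) ^ ℵ₀).ord.cof ∧ vcp ≤ max κ ((2 : Cardinal.{0}) ^ ℵ₀).ord.cof := by
  have h1 : ¬ ∃ X : Set (ℕ → Bool), #X = max κ ((2 : Cardinal.{0}) ^ ℵ₀).ord.cof ∧ IsDelta X := by
    rintro ⟨X, hX, h⟩
    have h2 := lt_cof_of_delta hd (hX ▸ cof_continuum_ge.trans (le_max_right _ _)) (hX ▸ le_max_left _ _) h
    rw [hX] at h2
    exact absurd h2 (not_lt.2 (le_max_right _ _))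
  constructor
  · exact csInf_le' fun h => h1 (((main _).out 0 3).1 h)
  · exact csInf_le' fun h => h1 (((main _).out 1 3).1 h)

/-- Both cardinals are uncountable. -/
theorem never_ge : (ℵ₁ : Cardinal.{0}) ≤ va ∧ (ℵ₁ : Cardinal.{0}) ≤ vcp := by
  have h2 : ∀ κ < (ℵ₁ : Cardinal.{0}), ∃ X : Set (ℕ → Bool), #X = κ ∧ IsDelta X := by
    intro κ hκ
    have h3 : κ ≤ ℵ₀ := by
      by_contra h4
      exact absurd hκ (not_lt.2 (Cardinal.aleph_one_le_iff.2 (not_le.1 h4)))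
    have h4 : κ ≤ #(ℕ → Bool) := by
      refine h3.trans ?_
      rw [Cardinal.mk_pi, Cardinal.prod_const, Cardinal.mk_bool, Cardinal.mk_nat, Cardinal.lift_id, Cardinal.lift_id,
        Cardinal.two_power_aleph0]
      exact Cardinal.aleph0_le_continuum
    obtain ⟨X, hX⟩ := Cardinal.le_mk_iff_exists_set.1 h4
    refine ⟨X, hX, isDelta_countable ?_⟩
    rw [← Cardinal.le_aleph0_iff_set_countable, hX]
    exact h3
  have h5 : ∀ X : Set (ℕ → Bool), #X = 2 ^ 𝔠 → False := by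
    intro X hX
    exact absurd (hX ▸ mk_le_continuum X) (not_le.2 (Cardinal.cantor 𝔠))
  constructor
  · refine le_csInf ⟨2 ^ 𝔠, ?_⟩ fun κ hκ => ?_
    · intro h
      obtain ⟨X, hX, _⟩ := ((main _).out 0 3).1 h
      exact h5 X hX
    · by_contra h3
      exact hκ (((main κ).out 0 3).2 (h2 κ (not_le.1 h3)))
  · refine le_csInf ⟨2 ^ 𝔠, ?_⟩ fun κ hκ => ?_
    · intro h
      obtain ⟨X, hX, _⟩ := ((main _).out 1 3).1 h
      exact h5 X hX
    · by_contra h3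
      exact hκ (((main κ).out 1 3).2 (h2 κ (not_le.1 h3)))

theorem never_eq_of_cof (hd : Out ℵ₁) (hc : ((2 : Cardinal.{0}) ^ ℵ₀).ord.cof = ℵ₁) : va = ℵ₁ ∧ vcp = ℵ₁ := by
  have h1 := never_le_cof hd
  rw [hc, max_self] at h1
  exact ⟨le_antisymm h1.1 never_ge.1, le_antisymm h1.2 never_ge.2⟩

end NeverCard
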