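import Pool.Agent.Lib.MP_598a87_lc.Defs

/-!
# Psi-spaces: combinatorial forms of the properties
-/

namespace NeverCard

open Set
open scoped Cardinal

variable {𝒜 : Set (Set ℕ)}

theorem nat_open (S : Set ℕ) : IsOpen ((Psi.nat : ℕ → Psi 𝒜) '' S) := by
  rintro A ⟨n, _, h⟩
  exact absurd h (by simp)

theorem dense_nat_mem {D : Set (Psi 𝒜)} (hD : Dense D) (n : ℕ) : Psi.nat n ∈ D := by
  obtain ⟨x, hx, hxD⟩ := hD.inter_open_nonempty _ (nat_open {n}) ⟨Psi.nat n, n, rfl, rfl⟩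
  obtain ⟨m, hm, rfl⟩ := hx
  have h : m = n := hm
  rw [← h]
  exact hxD

theorem range_nat_dense (h : ∀ A ∈ 𝒜, A.Infinite) : Dense (range (Psi.nat : ℕ → Psi 𝒜)) := by
  rw [dense_iff_inter_open]
  rintro U hU ⟨x, hx⟩
  rcases x with n | A
  · exact ⟨_, hx, n, rfl⟩
  · have h1 := hU A hx
    have h2 : (A.1 \ {n | n ∈ A.1 ∧ (Psi.nat n : Psi 𝒜) ∉ U}).Infinite := (h A.1 A.2).sdiff h1
    obtain ⟨n, hn, hn2⟩ := h2.nonempty
    refine ⟨Psi.nat n, ?_, n, rfl⟩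
    by_contra h3
    exact hn2 ⟨hn, h3⟩

/-- A set of isolated points which meets all `A` in finite sets is closed and discrete. -/
theorem nat_closed {P : Set ℕ} (hP : ∀ A ∈ 𝒜, (P ∩ A).Finite) : IsClosed ((Psi.nat : ℕ → Psi 𝒜) '' P) := by
  rw [← isOpen_compl_iff]
  intro A _
  refine (hP A.1 A.2).subset fun n hn => ?_
  have h : (Psi.nat n : Psi 𝒜) ∈ (Psi.nat : ℕ → Psi 𝒜) '' P := not_not.1 hn.2
  obtain ⟨m, hm, hmn⟩ := h
  injection hmn with hmn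
  exact ⟨hmn ▸ hm, hn.1⟩

theorem nat_discrete (P : Set ℕ) : DiscreteTopology ((Psi.nat : ℕ → Psi 𝒜) '' P) := by
  rw [discreteTopology_iff_isOpen_singleton]
  rintro ⟨_, n, hn, rfl⟩
  refine ⟨(Psi.nat : ℕ → Psi 𝒜) '' {n}, nat_open _, ?_⟩
  ext ⟨y, hy⟩
  constructor
  · rintro ⟨m, hm, hmy⟩
    have h : m = n := hm
    rw [mem_singleton_iff]
    exact Subtype.ext (hmy.symm.trans (congrArg Psi.nat h))
  · intro h
    rw [mem_singleton_iff] at h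
    exact ⟨n, rfl, (congrArg Subtype.val h).symm⟩

/-- The combinatorial form of (a). -/
def CombA (𝒜 : Set (Set ℕ)) : Prop :=
  ∀ f : 𝒜 → ℕ, ∃ P : Set ℕ, ∀ A : 𝒜, (P ∩ A.1).Finite ∧ ∃ n ∈ P ∩ A.1, f A ≤ n

theorem combA_of_propA (h𝒜 : ∀ A ∈ 𝒜, A.Infinite) (h : PropA (Psi 𝒜)) : CombA 𝒜 := by
  intro f
  let V : 𝒜 → Set (Psi 𝒜) := fun A => insert (Psi.pt A) (Psi.nat '' {n | n ∈ A.1 ∧ f A ≤ n})
  have hV : ∀ A, IsOpen (V A) := by
    intro A B hB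
    rcases hB with hB | ⟨n, _, hn⟩
    · injection hB with hB
      refine (finite_lt_nat (f A)).subset fun n hn => ?_
      by_contra h1
      refine hn.2 (Or.inr ⟨n, ⟨hB ▸ hn.1, not_lt.1 h1⟩, rfl⟩)
    · exact absurd hn (by simp)
  obtain ⟨F, hFD, hFc, _, hSt⟩ := h ({U | ∃ n, U = Psi.nat '' {n}} ∪ range V) (by
      rintro U (⟨n, rfl⟩ | ⟨A, rfl⟩)
      · exact nat_open _
      · exact hV A) (by
      rw [eq_univ_iff_forall]
      rintro (n | A)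
      · exact ⟨Psi.nat '' {n}, Or.inl ⟨n, rfl⟩, n, rfl, rfl⟩
      · exact ⟨V A, Or.inr ⟨A, rfl⟩, Or.inl rfl⟩) (range Psi.nat) (range_nat_dense h𝒜)
  refine ⟨{n | Psi.nat n ∈ F}, fun A => ⟨?_, ?_⟩⟩
  · have h1 := hFc.isOpen_compl A (fun h2 => by
      obtain ⟨n, hn⟩ := hFD h2
      exact absurd hn (by simp))
    exact h1.subset fun n hn => ⟨hn.2, not_not.2 hn.1⟩
  · have h1 : Psi.pt A ∈ St F ({U | ∃ n, U = Psi.nat '' {n}} ∪ range V) := by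
      rw [hSt]
      exact mem_univ _
    obtain ⟨U, ⟨hU, x, hxU, hxF⟩, hAU⟩ := h1
    rcases hU with ⟨n, rfl⟩ | ⟨B, rfl⟩
    · obtain ⟨m, _, hm⟩ := hAU
      exact absurd hm (by simp)
    · have hAB : A = B := by
        rcases hAU with h2 | ⟨m, _, hm⟩
        · injection h2
        · exact absurd hm (by simp)
      subst hAB
      rcases hxU with h2 | ⟨n, hn, rfl⟩
      · obtain ⟨n, hn⟩ := hFD hxF
        rw [h2] at hn
        exact absurd hn (by simp)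
      · exact ⟨n, ⟨hxF, hn.1⟩, hn.2⟩

theorem propA_of_combA (h : CombA 𝒜) : PropA (Psi 𝒜) := by
  classical
  intro 𝒰 h𝒰 hcov D hD
  have h1 : ∀ A : 𝒜, ∃ U ∈ 𝒰, Psi.pt A ∈ U := by
    intro A
    have h2 : Psi.pt A ∈ ⋃₀ 𝒰 := by
      rw [hcov]
      exact mem_univ _
    obtain ⟨U, hU, hA⟩ := h2
    exact ⟨U, hU, hA⟩
  choose U hU hA using h1
  have h2 : ∀ A : 𝒜, ∃ N, ∀ n ∈ A.1, N ≤ n → Psi.nat n ∈ U A := by
    intro A
    obtain ⟨N, hN⟩ := (h𝒰 _ (hU A) A (hA A)).bddAbove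
    refine ⟨N + 1, fun n hn hNn => ?_⟩
    by_contra h3
    have h4 := hN ⟨hn, h3⟩
    omega
  choose f hf using h2
  obtain ⟨P, hP⟩ := h f
  let F1 : Set (Psi 𝒜) := Psi.nat '' P
  have hSA : ∀ A : 𝒜, U A ⊆ St F1 𝒰 := by
    intro A x hx
    obtain ⟨n, hn, hfn⟩ := (hP A).2
    exact ⟨U A, ⟨hU A, Psi.nat n, hf A n hn.2 hfn, n, hn.1, rfl⟩, hx⟩
  let R : Set ℕ := {n | Psi.nat n ∉ St F1 𝒰}
  have hR : ∀ A : 𝒜, (R ∩ A.1).Finite := by
    intro A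
    refine (h𝒰 _ (hU A) A (hA A)).subset fun n hn => ⟨hn.2, fun h3 => hn.1 (hSA A h3)⟩
  refine ⟨Psi.nat '' (P ∪ R), ?_, nat_closed fun A hA => ?_, nat_discrete _, ?_⟩
  · rintro _ ⟨n, _, rfl⟩
    exact dense_nat_mem hD n
  · rw [union_inter_distrib_right]
    exact (hP ⟨A, hA⟩).1.union (hR ⟨A, hA⟩)
  · rw [eq_univ_iff_forall]
    have hmono : St F1 𝒰 ⊆ St ((Psi.nat : ℕ → Psi 𝒜) '' (P ∪ R)) 𝒰 := by
      rintro x ⟨W, ⟨hW, y, hy, hyF⟩, hx⟩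
      exact ⟨W, ⟨hW, y, hy, image_mono subset_union_left hyF⟩, hx⟩
    rintro (n | A)
    · by_cases h3 : Psi.nat n ∈ St F1 𝒰
      · exact hmono h3
      · have h4 : Psi.nat n ∈ ⋃₀ 𝒰 := by
          rw [hcov]
          exact mem_univ _
        obtain ⟨W, hW, hn⟩ := h4
        exact ⟨W, ⟨hW, Psi.nat n, hn, n, Or.inr h3, rfl⟩, hn⟩
    · exact hmono (hSA A (hA A))

/-- Ishikawa's condition. -/
def Ishikawa (X : Type) [TopologicalSpace X] : Prop :=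
  ∀ F : ℕ → Set X, Antitone F → (∀ n, IsClosed (F n)) → ⋂ n, F n = ∅ →
    ∃ U : ℕ → Set X, (∀ n, IsOpen (U n)) ∧ (∀ n, F n ⊆ U n) ∧ ⋂ n, closure (U n) = ∅

theorem ishikawa_of_cp {X : Type} [TopologicalSpace X] (h : CParacompact X) : Ishikawa X := by
  intro F hF hFc hF0
  obtain ⟨ι, V, hVo, hVc, hVl, hV⟩ := h (fun n => (F n)ᶜ) (fun n => (hFc n).isOpen_compl) (by
    rw [← compl_iInter, hF0, compl_empty])
  refine ⟨fun n => ⋃ i ∈ {i | ¬ V i ⊆ (F n)ᶜ}, V i, fun n => isOpen_biUnion fun i _ => hVo i, ?_, ?_⟩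
  · intro n x hx
    have h1 : x ∈ ⋃ i, V i := by
      rw [hVc]
      exact mem_univ _
    obtain ⟨i, hi⟩ := mem_iUnion.1 h1
    exact mem_biUnion (x := i) (fun h2 : V i ⊆ (F n)ᶜ => h2 hi hx) hi
  · rw [eq_empty_iff_forall_notMem]
    intro x hx
    rw [mem_iInter] at hx
    obtain ⟨N, hN, hfin⟩ := hVl x
    choose k hk using hV
    obtain ⟨m, hm⟩ := (hfin.image k).bddAbove
    have h1 := hx m
    rw [mem_closure_iff_nhds] at h1
    obtain ⟨y, hyN, hy⟩ := h1 N hN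
    obtain ⟨i, hi, hyi⟩ := mem_iUnion₂.1 hy
    refine hi ((hk i).trans (compl_subset_compl.2 (hF (hm ⟨i, ⟨y, hyi, hyN⟩, rfl⟩))))

theorem cp_of_ishikawa {X : Type} [TopologicalSpace X] (h : Ishikawa X) : CParacompact X := by
  classical
  intro W hWo hWc
  -- the increasing cover
  let W' : ℕ → Set X := fun n => ⋃ i ∈ Iic n, W i
  have hW'o : ∀ n, IsOpen (W' n) := fun n => isOpen_biUnion fun i _ => hWo i
  obtain ⟨U, hUo, hFU, hU0⟩ := h (fun n => (W' n)ᶜ) (fun m n hmn => compl_subset_compl.2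
    (biUnion_subset_biUnion_left (Iic_subset_Iic.2 hmn))) (fun n => (hW'o n).isClosed_compl) (by
    rw [← compl_iUnion, compl_empty_iff, eq_univ_iff_forall]
    intro x
    have h1 : x ∈ ⋃ n, W n := by
      rw [hWc]
      exact mem_univ _
    obtain ⟨n, hn⟩ := mem_iUnion.1 h1
    exact mem_iUnion.2 ⟨n, mem_biUnion (x := n) (mem_Iic.2 le_rfl) hn⟩)
  refine ⟨ℕ, fun n => W n ∩ ⋂ i ∈ Iio n, U i, ?_, ?_, ?_, fun n => ⟨n, inter_subset_left⟩⟩
  · intro n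
    exact (hWo n).inter ((finite_Iio n).isOpen_biInter fun i _ => hUo i)
  · rw [eq_univ_iff_forall]
    intro x
    have h1 : ∃ n, x ∈ W n := by
      have h2 : x ∈ ⋃ n, W n := by
        rw [hWc]
        exact mem_univ _
      exact mem_iUnion.1 h2
    refine mem_iUnion.2 ⟨Nat.find h1, Nat.find_spec h1, mem_iInter₂.2 fun i hi => hFU i ?_⟩
    intro h2
    obtain ⟨j, hj, hxj⟩ := mem_iUnion₂.1 h2
    exact Nat.find_min h1 (lt_of_le_of_lt (mem_Iic.1 hj) (mem_Iio.1 hi)) hxj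
  · intro x
    have h1 : ∃ n, x ∉ closure (U n) := by
      by_contra hcon
      push Not at hcon
      have h2 : x ∈ ⋂ n, closure (U n) := mem_iInter.2 hcon
      rw [hU0] at h2
      exact h2
    obtain ⟨n, hn⟩ := h1
    refine ⟨(closure (U n))ᶜ, isClosed_closure.isOpen_compl.mem_nhds hn, (finite_Iic n).subset fun m hm => ?_⟩
    obtain ⟨y, hy, hyn⟩ := hm
    rw [mem_Iic]
    by_contra hcon
    exact hyn (subset_closure (mem_iInter₂.1 hy.2 n (mem_Iio.2 (not_le.1 hcon))))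

end NeverCard
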