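import Mathlib

/-!
# Psi-spaces, property (a), countable paracompactness, and Delta-sets: definitions
-/

namespace NeverCard

open Set
open scoped Cardinal

/-- `𝒜` is an almost disjoint family of infinite subsets of `ℕ`. -/
def IsAD (𝒜 : Set (Set ℕ)) : Prop :=
  (∀ A ∈ 𝒜, A.Infinite) ∧ ∀ A ∈ 𝒜, ∀ B ∈ 𝒜, A ≠ B → (A ∩ B).Finite

/-- The underlying set of the Psi-space of `𝒜`. -/
inductive Psi (𝒜 : Set (Set ℕ)) : Type
  | nat : ℕ → Psi 𝒜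
  | pt : 𝒜 → Psi 𝒜

/-- A set is open if with each point `A` it contains the points of `A` up to finitely many. -/
instance (𝒜 : Set (Set ℕ)) : TopologicalSpace (Psi 𝒜) where
  IsOpen U := ∀ A : 𝒜, Psi.pt A ∈ U → {n | n ∈ A.1 ∧ Psi.nat n ∉ U}.Finite
  isOpen_univ A _ := by
    have h : {n | n ∈ A.1 ∧ (Psi.nat n : Psi 𝒜) ∉ (univ : Set (Psi 𝒜))} = ∅ := by
      ext n
      simp
    rw [h]
    exact finite_empty
  isOpen_inter U V hU hV A hA := by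
    refine ((hU A hA.1).union (hV A hA.2)).subset fun n hn => ?_
    by_cases h : (Psi.nat n : Psi 𝒜) ∈ U
    · exact Or.inr ⟨hn.1, fun h' => hn.2 ⟨h, h'⟩⟩
    · exact Or.inl ⟨hn.1, h⟩
  isOpen_sUnion S hS A hA := by
    obtain ⟨U, hU, hAU⟩ := hA
    exact (hS U hU A hAU).subset fun n hn => ⟨hn.1, fun h => hn.2 ⟨U, hU, h⟩⟩

theorem isOpen_iff {𝒜 : Set (Set ℕ)} {U : Set (Psi 𝒜)} :
    IsOpen U ↔ ∀ A : 𝒜, Psi.pt A ∈ U → {n | n ∈ A.1 ∧ Psi.nat n ∉ U}.Finite := Iff.rfl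

/-- The star of `F` with respect to `𝒰`. -/
def St {X : Type} (F : Set X) (𝒰 : Set (Set X)) : Set X := ⋃₀ {U | U ∈ 𝒰 ∧ (U ∩ F).Nonempty}

/-- Property (a). -/
def PropA (X : Type) [TopologicalSpace X] : Prop :=
  ∀ 𝒰 : Set (Set X), (∀ U ∈ 𝒰, IsOpen U) → ⋃₀ 𝒰 = univ → ∀ D : Set X, Dense D →
    ∃ F ⊆ D, IsClosed F ∧ DiscreteTopology F ∧ St F 𝒰 = univ

/-- Every countable open cover has a locally finite open refinement. -/
def CParacompact (X : Type) [TopologicalSpace X] : Prop :=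
  ∀ W : ℕ → Set X, (∀ n, IsOpen (W n)) → ⋃ n, W n = univ →
    ∃ (ι : Type) (V : ι → Set X), (∀ i, IsOpen (V i)) ∧ ⋃ i, V i = univ ∧ LocallyFinite V ∧ ∀ i, ∃ n, V i ⊆ W n

/-- `X ⊆ 2^ω` is a Delta-set. -/
def IsDelta (X : Set (ℕ → Bool)) : Prop :=
  ∀ D : ℕ → Set (ℕ → Bool), Antitone D → (∀ n, D n ⊆ X) → ⋂ n, D n = ∅ →
    ∃ U : ℕ → Set (ℕ → Bool), Antitone U ∧ (∀ n, IsOpen (U n)) ∧ (∀ n, D n ⊆ U n) ∧ (⋂ n, U n) ∩ X = ∅

/-- The least cardinal which is not the size of an almost disjoint family with property (a). -/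
noncomputable def va : Cardinal.{0} := sInf {κ | ¬ ∃ 𝒜 : Set (Set ℕ), IsAD 𝒜 ∧ #𝒜 = κ ∧ PropA (Psi 𝒜)}

/-- The least cardinal which is not the size of an almost disjoint family with a countably paracompact Psi-space. -/
noncomputable def vcp : Cardinal.{0} := sInf {κ | ¬ ∃ 𝒜 : Set (Set ℕ), IsAD 𝒜 ∧ #𝒜 = κ ∧ CParacompact (Psi 𝒜)}

end NeverCard
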