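import Pool.Agent.Lib.MP_598a87_lc.Comb

/-!
# Delta-sets and Psi-spaces
-/

namespace NeverCard

open Set
open scoped Cardinal

variable {𝒜 : Set (Set ℕ)}

open Classical in
/-- the characteristic function -/
noncomputable def chi (A : Set ℕ) : ℕ → Bool := fun n => decide (n ∈ A)

theorem chi_iff (A : Set ℕ) (n : ℕ) : chi A n = true ↔ n ∈ A := by
  classical
  exact decide_eq_true_iff

theorem chi_inj : Function.Injective chi := by
  intro A B h
  ext n
  rw [← chi_iff A, ← chi_iff B, h]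

/-- the value `1` is taken on a set of places: an open condition -/
theorem open_hit (S : Set ℕ) : IsOpen {x : ℕ → Bool | ∃ m ∈ S, x m = true} := by
  have h : {x : ℕ → Bool | ∃ m ∈ S, x m = true} = ⋃ m ∈ S, {x : ℕ → Bool | x m = true} := by
    ext x
    simp only [mem_ofPred_eq, mem_iUnion, exists_prop]
  rw [h]
  refine isOpen_biUnion fun m _ => ?_
  have hc : Continuous fun x : ℕ → Bool => x m := continuous_apply m
  exact (isOpen_discrete ({true} : Set Bool)).preimage hc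

theorem delta_of_combA (h : CombA 𝒜) : IsDelta (chi '' 𝒜) := by
  classical
  intro D hD hDX hD0
  -- the last index
  have h1 : ∀ A : 𝒜, ∃ n, chi A.1 ∉ D n := by
    intro A
    by_contra hcon
    push Not at hcon
    have h2 : chi A.1 ∈ ⋂ n, D n := mem_iInter.2 hcon
    rw [hD0] at h2
    exact h2
  choose f hf using h1
  obtain ⟨P, hP⟩ := h f
  refine ⟨fun n => {x | ∃ m ∈ {m | m ∈ P ∧ n ≤ m}, x m = true}, ?_, fun n => open_hit _, ?_, ?_⟩
  · rintro a b hab x ⟨m, ⟨hm1, hm2⟩, hm3⟩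
    exact ⟨m, ⟨hm1, hab.trans hm2⟩, hm3⟩
  · intro n x hx
    obtain ⟨A, hA, rfl⟩ := hDX n hx
    obtain ⟨m, hm, hfm⟩ := (hP ⟨A, hA⟩).2
    have h2 : n ≤ f ⟨A, hA⟩ := by
      by_contra hcon
      exact hf ⟨A, hA⟩ (hD (not_le.1 hcon).le hx)
    exact ⟨m, ⟨hm.1, h2.trans hfm⟩, (chi_iff A m).2 hm.2⟩
  · rw [eq_empty_iff_forall_notMem]
    rintro _ ⟨hx, A, hA, rfl⟩
    obtain ⟨N, hN⟩ := (hP ⟨A, hA⟩).1.bddAbove
    obtain ⟨m, ⟨hm1, hm2⟩, hm3⟩ := mem_iInter.1 hx (N + 1)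
    have h2 := hN ⟨hm1, (chi_iff A m).1 hm3⟩
    omega

theorem delta_of_ishikawa (h𝒜 : ∀ A ∈ 𝒜, A.Infinite) (h : Ishikawa (Psi 𝒜)) : IsDelta (chi '' 𝒜) := by
  classical
  intro D hD hDX hD0
  let F : ℕ → Set (Psi 𝒜) := fun n => {p | ∃ A : 𝒜, p = Psi.pt A ∧ chi A.1 ∈ D n}
  obtain ⟨U, hUo, hFU, hU0⟩ := h F (by
      rintro a b hab _ ⟨A, rfl, hA⟩
      exact ⟨A, rfl, hD hab hA⟩) (by
      intro n
      rw [← isOpen_compl_iff]
      intro A _
      refine finite_empty.subset fun m hm => hm.2 ?_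
      rintro ⟨B, hB, _⟩
      exact absurd hB (by simp)) (by
      rw [eq_empty_iff_forall_notMem]
      intro p hp
      obtain ⟨A, rfl, hA⟩ := mem_iInter.1 hp 0
      have h2 : chi A.1 ∈ ⋂ n, D n := by
        refine mem_iInter.2 fun n => ?_
        obtain ⟨B, hB, hB2⟩ := mem_iInter.1 hp n
        injection hB with hB
        rw [hB]
        exact hB2
      rw [hD0] at h2
      exact h2)
  refine ⟨fun n => ⋂ i ∈ Iic n, {x | ∃ m ∈ {m | (Psi.nat m : Psi 𝒜) ∈ U i ∧ n ≤ m}, x m = true}, ?_, ?_, ?_, ?_⟩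
  · intro a b hab x hx
    refine mem_iInter₂.2 fun i hi => ?_
    obtain ⟨m, ⟨hm1, hm2⟩, hm3⟩ := mem_iInter₂.1 hx i (mem_Iic.2 ((mem_Iic.1 hi).trans hab))
    exact ⟨m, ⟨hm1, hab.trans hm2⟩, hm3⟩
  · intro n
    exact (finite_Iic n).isOpen_biInter fun i _ => open_hit _
  · intro n x hx
    obtain ⟨A, hA, rfl⟩ := hDX n hx
    refine mem_iInter₂.2 fun i hi => ?_
    have h2 : (Psi.pt ⟨A, hA⟩ : Psi 𝒜) ∈ U i := hFU i ⟨⟨A, hA⟩, rfl, hD (mem_Iic.1 hi) hx⟩
    have h3 := hUo i ⟨A, hA⟩ h2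
    obtain ⟨m, hm, hnm⟩ := ((h𝒜 A hA).sdiff h3).exists_gt n
    refine ⟨m, ⟨?_, hnm.le⟩, (chi_iff A m).2 hm.1⟩
    by_contra h4
    exact hm.2 ⟨hm.1, h4⟩
  · rw [eq_empty_iff_forall_notMem]
    rintro _ ⟨hx, A, hA, rfl⟩
    have h2 : ∃ i, (Psi.pt ⟨A, hA⟩ : Psi 𝒜) ∉ closure (U i) := by
      by_contra hcon
      push Not at hcon
      have h3 : (Psi.pt ⟨A, hA⟩ : Psi 𝒜) ∈ ⋂ n, closure (U n) := mem_iInter.2 hcon
      rw [hU0] at h3
      exact h3
    obtain ⟨i, hi⟩ := h2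
    obtain ⟨N, hN⟩ := (isClosed_closure.isOpen_compl (s := closure (U i)) ⟨A, hA⟩ hi).bddAbove
    obtain ⟨m, ⟨hm1, hm2⟩, hm3⟩ := mem_iInter₂.1 (mem_iInter.1 hx (max i (N + 1))) i (mem_Iic.2 (le_max_left _ _))
    have h3 := hN ⟨(chi_iff A m).1 hm3, not_not.2 (subset_closure hm1)⟩
    have h4 := (le_max_right i (N + 1)).trans hm2
    omega

/-- the code of the restriction of `x` to `n` -/
def code (n : ℕ) (x : ℕ → Bool) : ℕ := Encodable.encode ((List.range n).map x)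

theorem le_code (n : ℕ) (x : ℕ → Bool) : n ≤ code n x := by
  have h := Encodable.length_le_encode ((List.range n).map x)
  rw [List.length_map, List.length_range] at h
  exact h

theorem code_inj {m n : ℕ} {x y : ℕ → Bool} (h : code m x = code n y) : m = n ∧ ∀ i < n, x i = y i := by
  have h1 := Encodable.encode_injective h
  have h2 := congrArg List.length h1
  rw [List.length_map, List.length_map, List.length_range, List.length_range] at h2
  subst h2
  refine ⟨rfl, fun i hi => ?_⟩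
  rw [List.map_inj_left] at h1
  exact h1 i (List.mem_range.2 hi)

theorem code_congr {n : ℕ} {x y : ℕ → Bool} (h : ∀ i < n, x i = y i) : code n x = code n y := by
  unfold code
  congr 1
  exact List.map_congr_left fun i hi => h i (List.mem_range.1 hi)

/-- the branch of `x` -/
def br (x : ℕ → Bool) : Set ℕ := range fun n => code n x

theorem br_inj : Function.Injective br := by
  intro x y h
  funext i
  have h1 : code (i + 1) x ∈ br y := h ▸ ⟨i + 1, rfl⟩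
  obtain ⟨n, hn⟩ := h1
  obtain ⟨h2, h3⟩ := code_inj hn
  exact (h3 i (Nat.lt_succ_self i)).symm

theorem br_ad (X : Set (ℕ → Bool)) : IsAD (br '' X) := by
  constructor
  · rintro _ ⟨x, _, rfl⟩
    exact infinite_range_of_injective fun m n h => (code_inj h).1
  · rintro _ ⟨x, _, rfl⟩ _ ⟨y, _, rfl⟩ hne
    have hxy : x ≠ y := fun h => hne (by rw [h])
    obtain ⟨i, hi⟩ := Function.ne_iff.1 hxy
    refine ((finite_Iic i).image fun n => code n x).subset ?_
    rintro _ ⟨⟨n, rfl⟩, m, hm⟩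
    refine ⟨n, ?_, rfl⟩
    rw [mem_Iic]
    by_contra hcon
    exact hi ((code_inj hm).2 i (not_le.1 hcon)).symm

/-- the basic open set -/
theorem exists_cone {U : Set (ℕ → Bool)} (hU : IsOpen U) {x : ℕ → Bool} (hx : x ∈ U) :
    ∃ m, ∀ y : ℕ → Bool, (∀ i < m, y i = x i) → y ∈ U := by
  classical
  obtain ⟨I, u, hu, hIU⟩ := isOpen_pi_iff.1 hU x hx
  obtain ⟨m, hm⟩ := I.bddAbove
  refine ⟨m + 1, fun y hy => hIU fun i hi => ?_⟩
  rw [hy i (Nat.lt_succ_of_le (hm hi))]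
  exact (hu i hi).2

theorem combA_of_delta {X : Set (ℕ → Bool)} (h : IsDelta X) : CombA (br '' X) := by
  classical
  intro f
  -- the function on `X`
  let g : (ℕ → Bool) → ℕ := fun x => if hx : x ∈ X then f ⟨br x, x, hx, rfl⟩ else 0
  obtain ⟨U, hUa, hUo, hDU, hU0⟩ := h (fun n => {x | x ∈ X ∧ n ≤ g x}) (fun a b hab x hx => ⟨hx.1, hab.trans hx.2⟩)
    (fun n x hx => hx.1) (by
      rw [eq_empty_iff_forall_notMem]
      intro x hx
      have h1 := (mem_iInter.1 hx (g x + 1)).2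
      omega)
  -- the code of the shortest cone inside `U n` of length at least `n`
  let Q : ℕ → ℕ → (ℕ → Bool) → Prop := fun n m x => n ≤ m ∧ ∀ y : ℕ → Bool, (∀ i < m, y i = x i) → y ∈ U n
  have hQex : ∀ n x, x ∈ U n → ∃ m, Q n m x := by
    intro n x hx
    obtain ⟨m, hm⟩ := exists_cone (hUo n) hx
    exact ⟨max n m, le_max_left _ _, fun y hy => hm y fun i hi => hy i (lt_of_lt_of_le hi (le_max_right _ _))⟩
  have hQc : ∀ n m x y, (∀ i < m, y i = x i) → ∀ k, k ≤ m → (Q n k x ↔ Q n k y) := by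
    intro n m x y hxy k hk
    refine and_congr_right fun _ => forall_congr' fun z => imp_congr_left (forall_congr' fun i => forall_congr' fun hi => ?_)
    rw [hxy i (lt_of_lt_of_le hi hk)]
  let P : Set ℕ := {p | ∃ n m x, Q n m x ∧ (∀ k, k < m → ¬ Q n k x) ∧ p = code m x}
  refine ⟨P, ?_⟩
  rintro ⟨_, x, hx, rfl⟩
  constructor
  · -- finitely many
    have h1 : ∃ N, x ∉ U N := by
      by_contra hcon
      push Not at hcon
      have h2 : x ∈ (⋂ n, U n) ∩ X := ⟨mem_iInter.2 hcon, hx⟩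
      rw [hU0] at h2
      exact h2
    obtain ⟨N, hN⟩ := h1
    have h2 : ∀ n, ∃ p, ∀ m, Q n m x → (∀ k, k < m → ¬ Q n k x) → code m x = p := by
      intro n
      by_cases h3 : ∃ m, Q n m x
      · refine ⟨code (Nat.find h3) x, fun m hm hk => ?_⟩
        have h4 : m = Nat.find h3 := by
          apply le_antisymm
          · by_contra hcon
            exact hk _ (not_le.1 hcon) (Nat.find_spec h3)
          · exact Nat.find_le hm
        rw [h4]
      · exact ⟨0, fun m hm => absurd ⟨m, hm⟩ h3⟩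
    choose p hp using h2
    refine ((finite_Iio N).image p).subset ?_
    rintro _ ⟨⟨n, m, y, hQ, hmin, hpe⟩, l, hl⟩
    have hl' : code l x = code m y := hl.trans hpe
    obtain ⟨h3, h4⟩ := code_inj hl'
    subst h3
    have h5 : Q n l x := (hQc n l y x h4 l le_rfl).1 hQ
    have h6 : ∀ k, k < l → ¬ Q n k x := fun k hk h7 => hmin k hk ((hQc n l y x h4 k hk.le).2 h7)
    refine ⟨n, ?_, ?_⟩
    · rw [mem_Iio]
      by_contra hcon
      exact hN (hUa (not_lt.1 hcon) (h5.2 x fun i _ => rfl))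
    · rw [← hp n l h5 h6]
      exact hl
  · -- a large one
    have h1 : x ∈ U (g x) := hDU (g x) ⟨hx, le_rfl⟩
    have h2 := hQex _ _ h1
    refine ⟨code (Nat.find h2) x, ⟨⟨g x, Nat.find h2, x, Nat.find_spec h2, fun k hk => Nat.find_min h2 hk, rfl⟩, ⟨_, rfl⟩⟩, ?_⟩
    have h3 : g x = f ⟨br x, x, hx, rfl⟩ := dif_pos hx
    rw [← h3]
    exact (Nat.find_spec h2).1.trans (le_code _ _)

theorem ishikawa_of_delta {X : Set (ℕ → Bool)} (h : IsDelta X) : Ishikawa (Psi (br '' X)) := by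
  classical
  intro F hF hFc hF0
  let b : X → (br '' X : Set (Set ℕ)) := fun x => ⟨br x.1, x.1, x.2, rfl⟩
  obtain ⟨O, hOa, hOo, hDO, hO0⟩ := h (fun n => {x | ∃ hx : x ∈ X, Psi.pt (b ⟨x, hx⟩) ∈ F n})
    (fun m n hmn x hx => ⟨hx.1, hF hmn hx.2⟩) (fun n x hx => hx.1) (by
      rw [eq_empty_iff_forall_notMem]
      intro x hx
      obtain ⟨hxX, _⟩ := mem_iInter.1 hx 0
      have h1 : Psi.pt (b ⟨x, hxX⟩) ∈ ⋂ n, F n := mem_iInter.2 fun n => (mem_iInter.1 hx n).2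
      rw [hF0] at h1
      exact h1)
  let E : ℕ → Set ℕ := fun n => {p | ∃ m x, n ≤ m ∧ (∀ y : ℕ → Bool, (∀ i < m, y i = x i) → y ∈ O n) ∧ p = code m x}
  let U : ℕ → Set (Psi (br '' X)) := fun n =>
    {p | (∃ x : X, p = Psi.pt (b x) ∧ x.1 ∈ O n) ∨ ∃ k, p = Psi.nat k ∧ (k ∈ E n ∨ Psi.nat k ∈ F n)}
  have hinf : ∀ k, ∃ n, ∀ n', n ≤ n' → (Psi.nat k : Psi (br '' X)) ∉ U n' := by
    intro k
    have h1 : ∃ n, (Psi.nat k : Psi (br '' X)) ∉ F n := by
      by_contra hcon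
      push Not at hcon
      have h2 : (Psi.nat k : Psi (br '' X)) ∈ ⋂ n, F n := mem_iInter.2 hcon
      rw [hF0] at h2
      exact h2
    obtain ⟨n, hn⟩ := h1
    refine ⟨max n (k + 1), fun n' hn' => ?_⟩
    rintro (⟨x, hx, _⟩ | ⟨k', hk', h2 | h2⟩)
    · exact absurd hx (by simp)
    · injection hk' with hk'
      subst hk'
      obtain ⟨m, x, hm, _, he⟩ := h2
      have h3 := le_code m x
      have h4 := (le_max_right n (k + 1)).trans hn'
      omega
    · injection hk' with hk'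
      subst hk'
      exact hn (hF ((le_max_left _ _).trans hn') h2)
  refine ⟨U, ?_, ?_, ?_⟩
  · intro n A hA
    rcases hA with ⟨x, hx, hxO⟩ | ⟨k, hk, _⟩
    · injection hx with hx
      subst hx
      obtain ⟨m, hm⟩ := exists_cone (hOo n) hxO
      refine ((finite_Iio (max m n)).image fun l => code l x.1).subset ?_
      rintro _ ⟨⟨l, rfl⟩, hl⟩
      refine ⟨l, ?_, rfl⟩
      rw [mem_Iio]
      by_contra hcon
      refine hl (Or.inr ⟨_, rfl, Or.inl ⟨l, x.1, (le_max_right m n).trans (not_lt.1 hcon), fun y hy => hm y fun i hi => ?_, rfl⟩⟩)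
      exact hy i (lt_of_lt_of_le hi ((le_max_left m n).trans (not_lt.1 hcon)))
    · exact absurd hk (by simp)
  · rintro n (k | ⟨_, x, hx, rfl⟩) hp
    · exact Or.inr ⟨k, rfl, Or.inr hp⟩
    · exact Or.inl ⟨⟨x, hx⟩, rfl, hDO n ⟨hx, hp⟩⟩
  · rw [eq_empty_iff_forall_notMem]
    rintro (k | ⟨_, x, hx, rfl⟩) hp
    · obtain ⟨n, hn⟩ := hinf k
      obtain ⟨y, hy, hyU⟩ := mem_closure_iff.1 (mem_iInter.1 hp n) _ (nat_open {k}) ⟨k, rfl, rfl⟩
      obtain ⟨j, hj, rfl⟩ := hy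
      have hj' : j = k := hj
      subst hj'
      exact hn n le_rfl hyU
    · -- a place where the branch leaves the sets
      have h1 : ∃ n, x ∉ O n := by
        by_contra hcon
        push Not at hcon
        have h2 : x ∈ (⋂ n, O n) ∩ X := ⟨mem_iInter.2 hcon, hx⟩
        rw [hO0] at h2
        exact h2
      obtain ⟨n, hn⟩ := h1
      have h2 : (Psi.pt (b ⟨x, hx⟩) : Psi (br '' X)) ∉ F n := fun h3 => hn (hDO n ⟨hx, h3⟩)
      have h3 := (hFc n).isOpen_compl (b ⟨x, hx⟩) h2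
      have hV : IsOpen (insert (Psi.pt (b ⟨x, hx⟩)) (Psi.nat '' {k | k ∈ br x ∧ (Psi.nat k : Psi (br '' X)) ∉ F n}) :
          Set (Psi (br '' X))) := by
        intro B hB
        rcases hB with hB | ⟨k, _, hk⟩
        · injection hB with hB
          subst hB
          refine h3.subset fun k hk => ⟨hk.1, fun h4 => hk.2 (Or.inr ⟨k, ⟨hk.1, h4⟩, rfl⟩)⟩
        · exact absurd hk (by simp)
      obtain ⟨y, hy, hyU⟩ := mem_closure_iff.1 (mem_iInter.1 hp n) _ hV (Or.inl rfl)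
      rcases hy with rfl | ⟨k, ⟨⟨l, hl⟩, hkF⟩, rfl⟩
      · rcases hyU with ⟨z, hz, hzO⟩ | ⟨k, hk, _⟩
        · injection hz with hz
          have h4 : br x = br z.1 := congrArg Subtype.val hz
          rw [br_inj h4] at hn
          exact hn hzO
        · exact absurd hk (by simp)
      · rcases hyU with ⟨z, hz, _⟩ | ⟨k', hk', h4 | h4⟩
        · exact absurd hz (by simp)
        · injection hk' with hk'
          subst hk'
          obtain ⟨m, z, hm, hmO, he⟩ := h4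
          have hl' : code l x = code m z := hl.trans he
          obtain ⟨h5, h6⟩ := code_inj hl'
          exact hn (hmO x h6)
        · injection hk' with hk'
          subst hk'
          exact hkF h4

theorem main (κ : Cardinal.{0}) : List.TFAE [
    ∃ 𝒜 : Set (Set ℕ), IsAD 𝒜 ∧ #𝒜 = κ ∧ PropA (Psi 𝒜),
    ∃ 𝒜 : Set (Set ℕ), IsAD 𝒜 ∧ #𝒜 = κ ∧ CParacompact (Psi 𝒜),
    ∃ 𝒜 : Set (Set ℕ), IsAD 𝒜 ∧ #𝒜 = κ ∧ PropA (Psi 𝒜) ∧ CParacompact (Psi 𝒜),
    ∃ X : Set (ℕ → Bool), #X = κ ∧ IsDelta X] := by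
  tfae_have 3 → 1 := fun ⟨𝒜, hAD, hκ, h, _⟩ => ⟨𝒜, hAD, hκ, h⟩
  tfae_have 3 → 2 := fun ⟨𝒜, hAD, hκ, _, h⟩ => ⟨𝒜, hAD, hκ, h⟩
  tfae_have 1 → 4 := fun ⟨𝒜, hAD, hκ, h⟩ =>
    ⟨chi '' 𝒜, (Cardinal.mk_image_eq chi_inj).trans hκ, delta_of_combA (combA_of_propA hAD.1 h)⟩
  tfae_have 2 → 4 := fun ⟨𝒜, hAD, hκ, h⟩ =>
    ⟨chi '' 𝒜, (Cardinal.mk_image_eq chi_inj).trans hκ, delta_of_ishikawa hAD.1 (ishikawa_of_cp h)⟩
  tfae_have 4 → 3 := fun ⟨X, hκ, h⟩ =>
    ⟨br '' X, br_ad X, (Cardinal.mk_image_eq br_inj).trans hκ, propA_of_combA (combA_of_delta h),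
      cp_of_ishikawa (ishikawa_of_delta h)⟩
  tfae_finish

end NeverCard
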