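import Pool.Agent.Lib.MP_598a87_lc.Cof

/-!
# The results as dichotomies
-/

namespace NeverCard

open Set
open scoped Cardinal Ordinal

/-- The dominating number is less than `2 ^ ℵ₀`: some family of fewer than `2 ^ ℵ₀` functions `ℕ → ℕ` dominates all
functions modulo finite sets. -/
def DLtC : Prop :=
  ∃ F : Set (ℕ → ℕ), (∀ f : ℕ → ℕ, ∃ g ∈ F, ∀ᶠ n in Filter.atTop, f n ≤ g n) ∧ #F < 2 ^ ℵ₀

/-- The complement of every set of at most `κ` points of `2^ω` is the union of fewer than `2 ^ ℵ₀` closed sets. -/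
def Thin (κ : Cardinal.{0}) : Prop :=
  ∀ Z : Set (ℕ → Bool), #Z ≤ κ →
    ∃ 𝒦 : Set (Set (ℕ → Bool)), (∀ K ∈ 𝒦, IsClosed K) ∧ ⋃₀ 𝒦 = Zᶜ ∧ #𝒦 < 2 ^ ℵ₀

theorem dltc_of_not (h : ¬ DEqC) : DLtC := by
  unfold DEqC at h
  push Not at h
  exact h

theorem thin_of_not {κ : Cardinal.{0}} (h : ¬ Out κ) : Thin κ := by
  intro Z hZ
  unfold Out at h
  push Not at h
  exact h Z hZ

theorem exists_delta {κ : Cardinal.{0}} {𝒜 : Set (Set ℕ)} (h𝒜 : IsAD 𝒜) (hA : #𝒜 = κ)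
    (h : PropA (Psi 𝒜) ∨ CParacompact (Psi 𝒜)) : ∃ X : Set (ℕ → Bool), #X = κ ∧ IsDelta X := by
  have h03 := (main κ).out 0 3
  have h13 := (main κ).out 1 3
  rcases h with h | h
  · exact h03.1 ⟨𝒜, h𝒜, hA, h⟩
  · exact h13.1 ⟨𝒜, h𝒜, hA, h⟩

theorem small_power {κ : Cardinal.{0}} (hκ : ℵ₀ ≤ κ) {𝒜 : Set (Set ℕ)} (h𝒜 : IsAD 𝒜) (hA : #𝒜 = κ)
    (h : PropA (Psi 𝒜) ∨ CParacompact (Psi 𝒜)) :
    (2 : Cardinal.{0}) ^ κ = 2 ^ ℵ₀ ∨ (ℵ_ ω₁ ≤ (2 : Cardinal.{0}) ^ ℵ₀ ∧ ∃ θ ≤ κ, ℵ₀ < θ ∧ ¬ Cov θ) := by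
  by_cases h1 : ∀ θ ≤ κ, ℵ₀ < θ → Cov θ
  · exact Or.inl (power_eq hκ h1 h𝒜 hA h)
  · push Not at h1
    obtain ⟨θ, h2, h3, h4⟩ := h1
    refine Or.inr ⟨?_, θ, h2, h3, h4⟩
    by_contra h5
    exact h4 (cov_small (not_le.1 h5) h3)

theorem small_never (h : (2 : Cardinal.{0}) ^ ℵ₀ < 2 ^ ℵ₁) :
    (va = ℵ₁ ∧ vcp = ℵ₁) ∨ (ℵ_ ω₁ ≤ (2 : Cardinal.{0}) ^ ℵ₀ ∧ ¬ Cov ℵ₁) := by
  by_cases h1 : Cov ℵ₁
  · exact Or.inl (never_eq h h1)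
  · refine Or.inr ⟨?_, h1⟩
    by_contra h5
    exact h1 (cov_small (not_le.1 h5) (Cardinal.aleph0_lt_aleph.2 zero_lt_one))

theorem cof_family {κ : Cardinal.{0}} (hc : ((2 : Cardinal.{0}) ^ ℵ₀).ord.cof ≤ κ) {𝒜 : Set (Set ℕ)}
    (h𝒜 : IsAD 𝒜) (hA : #𝒜 = κ) (h : PropA (Psi 𝒜) ∨ CParacompact (Psi 𝒜)) : DLtC ∧ Thin κ := by
  have hκ := cof_continuum_ge.trans hc
  obtain ⟨X, hX, hd⟩ := exists_delta h𝒜 hA h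
  have h1 : ∀ μ : Cardinal.{0}, μ ≤ κ → ¬ Out μ := by
    intro μ hμ ho
    have h2 := lt_cof_of_delta ho (hX.symm ▸ hκ) (hX.symm ▸ hμ) hd
    rw [hX] at h2
    exact absurd h2 (not_lt.2 hc)
  exact ⟨dltc_of_not fun h2 => h1 ℵ₀ hκ (out_of_d h2), thin_of_not (h1 κ le_rfl)⟩

theorem cof_never :
    (va ≤ ((2 : Cardinal.{0}) ^ ℵ₀).ord.cof ∧ vcp ≤ ((2 : Cardinal.{0}) ^ ℵ₀).ord.cof) ∨
      (DLtC ∧ Thin ((2 : Cardinal.{0}) ^ ℵ₀).ord.cof) := by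
  by_cases h : DLtC ∧ Thin ((2 : Cardinal.{0}) ^ ℵ₀).ord.cof
  · exact Or.inr h
  refine Or.inl ⟨csInf_le' ?_, csInf_le' ?_⟩
  · rintro ⟨𝒜, h𝒜, hA, hp⟩
    exact h (cof_family le_rfl h𝒜 hA (Or.inl hp))
  · rintro ⟨𝒜, h𝒜, hA, hp⟩
    exact h (cof_family le_rfl h𝒜 hA (Or.inr hp))

theorem cof_never_one (hc : ((2 : Cardinal.{0}) ^ ℵ₀).ord.cof = ℵ₁) :
    (va = ℵ₁ ∧ vcp = ℵ₁) ∨ (DLtC ∧ Thin ℵ₁) := by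
  have h := cof_never
  rw [hc] at h
  rcases h with h | h
  · exact Or.inl ⟨le_antisymm h.1 never_ge.1, le_antisymm h.2 never_ge.2⟩
  · exact Or.inr h

end NeverCard
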