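import Pool.Agent.Lib.MP_598a87_lc.Delta

/-!
# Dominating families of functions and families of eventually different functions
-/

namespace NeverCard

open Set
open scoped Cardinal

/-- A family of at most `lam` functions dominates all functions from `I` to `ℕ` everywhere. -/
def Dom (lam : Cardinal.{0}) (I : Type) : Prop :=
  ∃ (P : Type) (F : P → I → ℕ), #P ≤ lam ∧ ∀ f : I → ℕ, ∃ p, ∀ i, f i ≤ F p i

theorem Dom.of_inj {lam : Cardinal.{0}} {I J : Type} (h : Dom lam I) (e : J → I) (he : Function.Injective e) :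
    Dom lam J := by
  obtain ⟨P, F, hP, hF⟩ := h
  refine ⟨P, fun p j => F p (e j), hP, fun f => ?_⟩
  obtain ⟨p, hp⟩ := hF (Function.extend e f 0)
  refine ⟨p, fun j => ?_⟩
  have h1 := hp (e j)
  rwa [he.extend_apply] at h1

theorem dom_of_combA {𝒜 : Set (Set ℕ)} (h : CombA 𝒜) : Dom 𝔠 𝒜 := by
  refine ⟨Set ℕ, fun P A => sSup (P ∩ A.1), ?_, fun f => ?_⟩
  · rw [Cardinal.mk_set, Cardinal.mk_nat, Cardinal.two_power_aleph0]
  · obtain ⟨P, hP⟩ := h f
    refine ⟨P, fun A => ?_⟩
    obtain ⟨h1, n, hn, hf⟩ := hP A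
    exact hf.trans (le_csSup h1.bddAbove hn)

/-- There are `|M| + 1` functions from `M` to `ℕ` such that on every infinite subset of `M` one of them is unbounded. -/
theorem exists_tests (M : Type) :
    ∃ ψ : Option M → M → ℕ, ∀ V : Set M, V.Infinite → ∃ j, ∀ N, ∃ x ∈ V, N < ψ j x := by
  classical
  obtain ⟨hl, hw⟩ := exists_wellFoundedLT M
  let L : Option M → Set M := fun j => match j with
    | none => univ
    | some m => Iio m
  let Q : Option M → (ℕ → M) → Prop := fun j c => (∀ n, c n ∈ L j) ∧ ∀ x ∈ L j, ∃ n, x ≤ c n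
  have hc : ∀ j, ∃ c : Option (ℕ → M), (∀ c', c = some c' → Q j c') ∧ ((∃ c', Q j c') → c ≠ none) := by
    intro j
    by_cases h : ∃ c, Q j c
    · obtain ⟨c, h⟩ := h
      refine ⟨some c, fun c' hc' => ?_, fun _ => by simp⟩
      rw [← Option.some.inj hc']
      exact h
    · exact ⟨none, fun c' hc' => by simp at hc', fun h' => absurd h' h⟩
  choose c hc1 hc2 using hc
  let ψ : Option M → M → ℕ := fun j x => match c j with
    | none => 0
    | some c' => if hx : ∃ n, x ≤ c' n then Nat.find hx else 0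
  refine ⟨ψ, fun V hV => ?_⟩
  have : Infinite V := hV.to_subtype
  obtain ⟨f, hf | hf⟩ := Infinite.exists_strictMono_or_strictAnti V
  swap
  · exact absurd hf (not_strictAnti_of_wellFoundedLT f)
  let v : ℕ → M := fun n => (f n).1
  have hv : StrictMono v := fun a b hab => hf hab
  -- the lower set
  have hL : ∃ j, L j = {x | ∃ n, x ≤ v n} := by
    by_cases h : ∀ x, ∃ n, x ≤ v n
    · refine ⟨none, ?_⟩
      ext x
      exact ⟨fun _ => h x, fun _ => mem_univ _⟩
    · push Not at h
      let m := WellFounded.min (wellFounded_lt (α := M)) {x | ∀ n, v n < x} h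
      have hm : ∀ n, v n < m := WellFounded.min_mem (wellFounded_lt (α := M)) {x | ∀ n, v n < x} h
      refine ⟨some m, ?_⟩
      ext x
      constructor
      · intro hx
        by_contra h2
        have h3 : x ∈ {x | ∀ n, v n < x} := fun n => not_le.1 fun h4 => h2 ⟨n, h4⟩
        exact WellFounded.not_lt_min (wellFounded_lt (α := M)) {x | ∀ n, v n < x} h3 hx
      · rintro ⟨n, hn⟩
        exact lt_of_le_of_lt hn (hm n)
  obtain ⟨j, hj⟩ := hL
  have hQ : Q j v := by
    constructor
    · intro n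
      rw [hj]
      exact ⟨n, le_rfl⟩
    · intro x hx
      rw [hj] at hx
      exact hx
  have h1 := hc2 j ⟨v, hQ⟩
  obtain ⟨c', hc'⟩ := Option.ne_none_iff_exists'.1 h1
  have hQ' := hc1 j c' hc'
  refine ⟨j, fun N => ?_⟩
  -- a member of `v` above the first members of `c'`
  have h2 : ∀ k, ∃ n, c' k ≤ v n := by
    intro k
    have h3 := hQ'.1 k
    rw [hj] at h3
    exact h3
  choose n hn using h2
  obtain ⟨B, hB⟩ := ((finite_Iic N).image n).bddAbove
  refine ⟨v (B + 1), (f (B + 1)).2, ?_⟩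
  have h4 : ∃ n, v (B + 1) ≤ c' n := hQ'.2 _ (hQ.1 _)
  have h5 : ψ j (v (B + 1)) = Nat.find h4 := by
    change (match c j with
      | none => 0
      | some c' => if hx : ∃ n, v (B + 1) ≤ c' n then Nat.find hx else 0) = _
    rw [hc']
    exact dif_pos h4
  rw [h5]
  by_contra h6
  have h7 := Nat.find_spec h4
  have h8 := hB ⟨Nat.find h4, not_lt.1 h6, rfl⟩
  have h9 := (h7.trans (hn _)).trans (hv.monotone h8)
  exact absurd (hv (Nat.lt_succ_self B)) (not_lt.2 h9)

/-- A dominating family for functions to `ℕ` gives a family of finite-set valued functions which captures all functions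
to a set of size at most `|I|`. -/
theorem capture {lam : Cardinal.{0}} {I M : Type} (hI : ℵ₀ ≤ #I) (hM : #M ≤ #I) (hD : Dom lam I) :
    ∃ (P : Type) (V : P → I → Set M), #P ≤ lam ∧ (∀ p i, (V p i).Finite) ∧ ∀ h : I → M, ∃ p, ∀ i, h i ∈ V p i := by
  obtain ⟨ψ, hψ⟩ := exists_tests M
  have h1 : #(I × Option M) ≤ #I := by
    rw [Cardinal.mk_prod, Cardinal.lift_id, Cardinal.lift_id, Cardinal.mk_option]
    exact Cardinal.mul_le_of_le hI le_rfl (Cardinal.add_le_of_le hI hM (Cardinal.one_le_aleph0.trans hI))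
  obtain ⟨e⟩ := h1
  obtain ⟨P, F, hP, hF⟩ := hD.of_inj e e.injective
  refine ⟨P, fun p i => {x | ∀ j, ψ j x ≤ F p (i, j)}, hP, fun p i => ?_, fun h => ?_⟩
  · by_contra h4
    obtain ⟨j, hj⟩ := hψ _ h4
    obtain ⟨x, hx1, hx2⟩ := hj (F p (i, j))
    exact absurd (hx1 j) (not_le.2 hx2)
  · obtain ⟨p, hp⟩ := hF fun q => ψ q.2 (h q.1)
    exact ⟨p, fun i j => hp (i, j)⟩

/-- Families of functions from `I` to `M` which pairwise agree on fewer than `|I|` points have at most `lam` members. -/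
def ED (lam : Cardinal.{0}) (I M : Type) : Prop :=
  ∀ (G : Type) (g : G → I → M), (∀ a b, a ≠ b → #({i | g a i = g b i} : Set I) < #I) → #G ≤ lam

theorem ED.of_equiv {lam : Cardinal.{0}} {I J M : Type} (h : ED lam I M) (e : I ≃ J) : ED lam J M := by
  intro G g hg
  refine h G (fun a i => g a (e i)) fun a b hab => ?_
  rw [Cardinal.mk_congr e]
  refine lt_of_le_of_lt ?_ (hg a b hab)
  exact Cardinal.mk_le_of_injective (f := fun i : ({i | g a (e i) = g b (e i)} : Set I) =>
    (⟨e i.1, i.2⟩ : ({j | g a j = g b j} : Set J))) fun x y hxy => Subtype.ext (e.injective (congrArg Subtype.val hxy))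

theorem mk_le_of_fibers {lam : Cardinal.{0}} {G P : Type} (p : G → P) (hlam : ℵ₀ ≤ lam) (hP : #P ≤ lam)
    (h : ∀ q, #{a // p a = q} ≤ lam) : #G ≤ lam := by
  rw [← Cardinal.mk_congr (Equiv.sigmaFiberEquiv p), Cardinal.mk_sigma]
  calc Cardinal.sum (fun q => #{a // p a = q}) ≤ Cardinal.sum (fun _ : P => lam) := Cardinal.sum_le_sum _ _ h
    _ = #P * lam := by rw [Cardinal.sum_const']
    _ ≤ lam * lam := mul_le_mul_left hP lam
    _ = lam := Cardinal.mul_eq_self hlam

theorem ed_base {lam : Cardinal.{0}} {I M : Type} (hlam : ℵ₀ ≤ lam) (hI : ℵ₀ ≤ #I) (hcof : ℵ₀ < (#I).ord.cof)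
    (hM : #M ≤ #I) (hD : Dom lam I) : ED lam I M := by
  classical
  intro G g hg
  by_contra hcon
  have hcon := not_le.1 hcon
  have : Infinite G := Cardinal.infinite_iff.2 (hlam.trans hcon.le)
  obtain ⟨P, V, hP, hV, hc⟩ := capture hI hM hD
  have h2 : ∀ a : G, ∃ p, ∀ i, g a i ∈ V p i := fun a => hc _
  choose p hp using h2
  obtain ⟨q, hq⟩ := Cardinal.exists_infinite_fiber p (hP.trans_lt hcon)
  -- finitely many values
  have h3 : ∀ i, {x | ∃ a, p a = q ∧ g a i = x}.Finite := by
    intro i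
    refine (hV q i).subset ?_
    rintro _ ⟨a, ha, rfl⟩
    rw [← ha]
    exact hp a i
  -- the number of values
  let n : I → ℕ := fun i => (h3 i).toFinset.card
  obtain ⟨N, hN⟩ := Cardinal.infinite_pigeonhole n hI (by rw [Cardinal.mk_nat]; exact hcof)
  have := hq
  let s : ℕ ↪ p ⁻¹' {q} := Infinite.natEmbedding _
  -- a point where the first members differ
  have h5 : ∃ i ∈ n ⁻¹' {N}, ∀ k l : Fin (N + 1), k ≠ l → g (s k).1 i ≠ g (s l).1 i := by
    by_contra h6
    push Not at h6
    have h7 : ∀ i : n ⁻¹' {N}, ∃ kl : Fin (N + 1) × Fin (N + 1), kl.1 ≠ kl.2 ∧ g (s kl.1).1 i.1 = g (s kl.2).1 i.1 := by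
      intro i
      obtain ⟨k, l, hkl, h⟩ := h6 i.1 i.2
      exact ⟨(k, l), hkl, h⟩
    choose b hb using h7
    obtain ⟨kl, hkl⟩ := Cardinal.infinite_pigeonhole b (by rw [hN]; exact hI) (by
      rw [hN]
      exact (Cardinal.lt_aleph0_of_finite _).trans hcof)
    rw [hN] at hkl
    have h8 : Nonempty (b ⁻¹' {kl}) := by
      rw [← Cardinal.mk_ne_zero_iff, hkl]
      exact (Cardinal.aleph0_pos.trans_le hI).ne'
    obtain ⟨i0, hi0⟩ := h8
    have hne : kl.1 ≠ kl.2 := by
      have h9 : b i0 = kl := hi0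
      rw [← h9]
      exact (hb i0).1
    have h9 : (s kl.1).1 ≠ (s kl.2).1 := fun h => hne (Fin.ext (s.injective (Subtype.ext h)))
    have h10 := hg _ _ h9
    refine absurd h10 (not_lt.2 ?_)
    rw [← hkl]
    rw [← Cardinal.mk_image_eq (s := b ⁻¹' {kl}) (Subtype.val_injective (p := fun i => i ∈ n ⁻¹' {N}))]
    refine Cardinal.mk_le_mk_of_subset ?_
    rintro _ ⟨i, hi, rfl⟩
    have h11 : b i = kl := hi
    have h12 := (hb i).2
    rw [h11] at h12
    exact h12
  obtain ⟨i, hi, hd⟩ := h5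
  have h6 : (Finset.univ : Finset (Fin (N + 1))).card ≤ (h3 i).toFinset.card := by
    refine Finset.card_le_card_of_injOn (fun k => g (s k).1 i) ?_ ?_
    · intro k _
      have h7 : p (s k).1 = q := (s k).2
      simp only [Finite.coe_toFinset, mem_ofPred_eq]
      exact ⟨_, h7, rfl⟩
    · intro k _ l _ hkl
      by_contra hne
      exact hd k l hne hkl
  rw [Finset.card_univ, Fintype.card_fin] at h6
  have h7 : (h3 i).toFinset.card = N := hi
  omega

end NeverCard
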