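import Pool.Agent.Lib.MP_598a87_lc.Power

/-!
# Small continuum: Delta-sets of size `κ` imply `2 ^ κ = 2 ^ ℵ₀`
-/

namespace NeverCard

open Set
open scoped Cardinal Ordinal

/-- Covering: for every `N` with `θ < |N| ≤ 2 ^ ℵ₀` and `cof |N| = θ` there are at most `2 ^ ℵ₀` subsets of `N`
of size less than `|N|` such that every subset of `N` of size at most `θ` is contained in one of them. -/
def Cov (θ : Cardinal.{0}) : Prop :=
  ∀ N : Type, θ < #N → #N ≤ 2 ^ ℵ₀ → (#N).ord.cof = θ →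
    ∃ C : Set (Set N), #C ≤ 2 ^ ℵ₀ ∧ (∀ c ∈ C, #c < #N) ∧ ∀ R : Set N, #R ≤ θ → ∃ c ∈ C, R ⊆ c

theorem cov_small (h : (2 : Cardinal.{0}) ^ ℵ₀ < ℵ_ ω₁) {θ : Cardinal.{0}} (hθ : ℵ₀ < θ) : Cov θ := by
  intro N hκN hN hc
  have h1 : ℵ₀ ≤ #N := hθ.le.trans hκN.le
  obtain ⟨o, ho⟩ := Cardinal.mem_range_aleph_iff.2 h1
  have h2 : o < ω₁ := by
    rw [← Cardinal.aleph_lt_aleph, ho]
    exact hN.trans_lt h
  rcases Ordinal.zero_or_succ_or_isSuccLimit o with h3 | ⟨a, h3⟩ | h3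
  · rw [h3, Cardinal.aleph_zero] at ho
    rw [← ho] at hκN
    exact absurd hθ (not_lt.2 hκN.le)
  · rw [← ho, ← h3, Order.succ_eq_add_one] at hc hκN
    rw [(Cardinal.isRegular_aleph_add_one a).cof_ord] at hc
    exact absurd hκN (not_lt.2 hc.le)
  · have h4 : (ω_ o).cof = ℵ₀ := by
      rw [Ordinal.cof_omega h3]
      exact Ordinal.cof_eq_aleph0_of_isSuccLimit h3 h2
    rw [← ho, Cardinal.ord_aleph, h4] at hc
    exact absurd hθ (not_lt.2 hc.ge)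

theorem IsDelta.mono {X Y : Set (ℕ → Bool)} (h : IsDelta X) (hYX : Y ⊆ X) : IsDelta Y := by
  intro D hD hDY hD0
  obtain ⟨U, h1, h2, h3, h4⟩ := h D hD (fun n => (hDY n).trans hYX) hD0
  exact ⟨U, h1, h2, h3, subset_empty_iff.1 ((inter_subset_inter_right _ hYX).trans h4.subset)⟩

theorem isDelta_range (x : ℕ → ℕ → Bool) : IsDelta (range x) := by
  classical
  intro D hD hDX hD0
  refine ⟨fun n => ⋂ i ∈ Iio n, {y | x i ∉ D n → y ≠ x i}, ?_, ?_, ?_, ?_⟩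
  · intro m n hmn y hy
    refine mem_iInter₂.2 fun i hi h => ?_
    exact mem_iInter₂.1 hy i (lt_of_lt_of_le (mem_Iio.1 hi) hmn) fun h' => h (hD hmn h')
  · intro n
    refine (finite_Iio n).isOpen_biInter fun i _ => ?_
    by_cases h : x i ∈ D n
    · have h1 : {y | x i ∉ D n → y ≠ x i} = (univ : Set (ℕ → Bool)) := by
        ext y
        exact ⟨fun _ => mem_univ _, fun _ h' => absurd h h'⟩
      rw [h1]
      exact isOpen_univ
    · have h1 : {y | x i ∉ D n → y ≠ x i} = ({x i}ᶜ : Set (ℕ → Bool)) := by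
        ext y
        exact ⟨fun h' => h' h, fun h' _ => h'⟩
      rw [h1]
      exact isOpen_compl_singleton
  · intro n y hy
    refine mem_iInter₂.2 fun i _ h h' => ?_
    rw [h'] at hy
    exact h hy
  · rw [eq_empty_iff_forall_notMem]
    rintro _ ⟨hy, i, rfl⟩
    have h1 : ∃ m, x i ∉ D m := by
      by_contra hcon
      push Not at hcon
      have h2 : x i ∈ ⋂ n, D n := mem_iInter.2 hcon
      rw [hD0] at h2
      exact h2
    obtain ⟨m, hm⟩ := h1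
    have h2 := mem_iInter₂.1 (mem_iInter.1 hy (max m (i + 1))) i (lt_of_lt_of_le (Nat.lt_succ_self i) (le_max_right _ _))
    exact h2 (fun h3 => hm (hD (le_max_left _ _) h3)) rfl

theorem isDelta_countable {X : Set (ℕ → Bool)} (hX : X.Countable) : IsDelta X := by
  obtain ⟨x, hx⟩ := countable_iff_exists_subset_range.1 hX
  exact (isDelta_range x).mono hx

theorem dom_of_delta {X : Set (ℕ → Bool)} (h : IsDelta X) : Dom 𝔠 X :=
  (dom_of_combA (combA_of_delta h)).of_inj (fun x => ⟨br x.1, x.1, x.2, rfl⟩)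
    fun _ _ hxy => Subtype.ext (br_inj (congrArg Subtype.val hxy))

theorem mk_le_continuum (X : Set (ℕ → Bool)) : #X ≤ 𝔠 := by
  refine (Cardinal.mk_set_le X).trans ?_
  rw [Cardinal.mk_pi, Cardinal.prod_const, Cardinal.mk_bool, Cardinal.mk_nat, Cardinal.lift_id, Cardinal.lift_id,
    Cardinal.two_power_aleph0]

theorem power_of_delta : ∀ κ : Cardinal.{0}, ℵ₀ ≤ κ → (∀ θ ≤ κ, ℵ₀ < θ → Cov θ) → ∀ X : Set (ℕ → Bool), #X = κ →
    IsDelta X → (2 : Cardinal.{0}) ^ κ ≤ 𝔠 := by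
  intro κ
  induction κ using WellFoundedLT.induction with
  | _ κ ih =>
  intro hκ hcov X hX hd
  have hs : ∀ κ' < #X, (2 : Cardinal.{0}) ^ κ' ≤ 𝔠 := by
    intro κ' hκ'
    rcases lt_or_ge κ' ℵ₀ with h1 | h1
    · exact (Cardinal.power_lt_aleph0 (Cardinal.natCast_lt_aleph0 (n := 2)) h1).le.trans Cardinal.aleph0_le_continuum
    · obtain ⟨Y, hY, hYκ⟩ := Cardinal.le_mk_iff_exists_subset.1 hκ'.le
      exact ih κ' (hX ▸ hκ') h1 (fun θ h => hcov θ (h.trans (hX ▸ hκ'.le))) Y hYκ (hd.mono hY)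
  rw [← hX] at hκ hcov ⊢
  rcases hκ.eq_or_lt with h0 | h0
  · rw [← h0, Cardinal.two_power_aleph0]
  by_cases hc : (#X).ord.cof < #X
  · exact two_power_le_sing h0 hc hs
  · have hreg : (#X).ord.cof = #X := le_antisymm (Ordinal.cof_ord_le _) (not_lt.1 hc)
    refine two_power_le Cardinal.aleph0_le_continuum hκ (mk_le_continuum X) hs ?_
    refine ed_step Cardinal.aleph0_le_continuum h0 hreg (dom_of_delta hd) fun M h1 h2 h3 => ?_
    rw [← Cardinal.two_power_aleph0] at h2 ⊢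
    obtain ⟨C, hC0, hC1, hC2⟩ := hcov _ le_rfl h0 M h1 h2 h3
    refine ⟨C, fun c => c.1, hC0, fun c => hC1 c.1 c.2, fun g => ?_⟩
    obtain ⟨c, hc, hgc⟩ := hC2 (range g) Cardinal.mk_range_le
    exact ⟨⟨c, hc⟩, fun i => hgc ⟨i, rfl⟩⟩

theorem power_eq {κ : Cardinal.{0}} (hκ : ℵ₀ ≤ κ) (hcov : ∀ θ ≤ κ, ℵ₀ < θ → Cov θ) {𝒜 : Set (Set ℕ)} (h𝒜 : IsAD 𝒜)
    (hA : #𝒜 = κ) (h : PropA (Psi 𝒜) ∨ CParacompact (Psi 𝒜)) : (2 : Cardinal.{0}) ^ κ = 2 ^ ℵ₀ := by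
  have h1 : ∃ X : Set (ℕ → Bool), #X = κ ∧ IsDelta X := by
    have h03 := (main κ).out 0 3
    have h13 := (main κ).out 1 3
    rcases h with h | h
    · exact h03.1 ⟨𝒜, h𝒜, hA, h⟩
    · exact h13.1 ⟨𝒜, h𝒜, hA, h⟩
  obtain ⟨X, hX, hd⟩ := h1
  refine le_antisymm ?_ (Cardinal.power_le_power_left two_ne_zero hκ)
  rw [Cardinal.two_power_aleph0]
  exact power_of_delta κ hκ hcov X hX hd

theorem never_eq (h : (2 : Cardinal.{0}) ^ ℵ₀ < 2 ^ ℵ₁) (hc : Cov ℵ₁) : va = ℵ₁ ∧ vcp = ℵ₁ := by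
  have h0 : (ℵ₀ : Cardinal.{0}) ≤ ℵ₁ := Cardinal.aleph0_le_aleph 1
  have hcov : ∀ θ ≤ (ℵ₁ : Cardinal.{0}), ℵ₀ < θ → Cov θ := by
    intro θ hθ hθ0
    have h2 : θ = ℵ₁ := le_antisymm hθ (Cardinal.aleph_one_le_iff.2 hθ0)
    rw [h2]
    exact hc
  have h1 : ∀ 𝒜 : Set (Set ℕ), IsAD 𝒜 → #𝒜 = ℵ₁ → ¬ (PropA (Psi 𝒜) ∨ CParacompact (Psi 𝒜)) := by
    intro 𝒜 h𝒜 hA hp
    exact absurd (power_eq h0 hcov h𝒜 hA hp) h.ne'
  have h2 : ∀ κ < (ℵ₁ : Cardinal.{0}), ∃ X : Set (ℕ → Bool), #X = κ ∧ IsDelta X := by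
    intro κ hκ
    have h3 : κ ≤ ℵ₀ := by
      by_contra h4
      exact absurd hκ (not_lt.2 (Cardinal.aleph_one_le_iff.2 (not_le.1 h4)))
    have h4 : κ ≤ #(ℕ → Bool) := by
      refine h3.trans ?_
      rw [Cardinal.mk_pi, Cardinal.prod_const, Cardinal.mk_bool, Cardinal.mk_nat, Cardinal.lift_id, Cardinal.lift_id,
        Cardinal.two_power_aleph0]
      exact Cardinal.aleph0_le_continuum
    obtain ⟨X, hX⟩ := Cardinal.le_mk_iff_exists_set.1 h4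
    refine ⟨X, hX, isDelta_countable ?_⟩
    rw [← Cardinal.le_aleph0_iff_set_countable, hX]
    exact h3
  constructor
  · refine le_antisymm (csInf_le' ?_) (le_csInf ⟨ℵ₁, ?_⟩ fun κ hκ => ?_)
    · rintro ⟨𝒜, h𝒜, hA, hp⟩
      exact h1 𝒜 h𝒜 hA (Or.inl hp)
    · rintro ⟨𝒜, h𝒜, hA, hp⟩
      exact h1 𝒜 h𝒜 hA (Or.inl hp)
    · by_contra h3
      exact hκ (((main κ).out 0 3).2 (h2 κ (not_le.1 h3)))
  · refine le_antisymm (csInf_le' ?_) (le_csInf ⟨ℵ₁, ?_⟩ fun κ hκ => ?_)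
    · rintro ⟨𝒜, h𝒜, hA, hp⟩
      exact h1 𝒜 h𝒜 hA (Or.inr hp)
    · rintro ⟨𝒜, h𝒜, hA, hp⟩
      exact h1 𝒜 h𝒜 hA (Or.inr hp)
    · by_contra h3
      exact hκ (((main κ).out 1 3).2 (h2 κ (not_le.1 h3)))

end NeverCard
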