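import Pool.Agent.Lib.MP_598a87_lc.Dom

/-!
# Delta-sets and powers of two
-/

namespace NeverCard

open Set
open scoped Cardinal

/-- The subsets of `M` which are initial segments cover all sets of fewer than `cof` members. -/
theorem cov_of_cof {I M : Type} (h : #I < (#M).ord.cof) :
    ∃ C : M → Set M, (∀ q, #(C q) < #M) ∧ ∀ g : I → M, ∃ q, ∀ i, g i ∈ C q := by
  obtain ⟨hl, hw, hM⟩ := Cardinal.exists_ord_eq_type_lt M
  rw [hM, Ordinal.cof_type] at h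
  refine ⟨fun q => Iio q, fun q => Cardinal.mk_Iio_lt q hM, fun g => ?_⟩
  have h1 : ¬ IsCofinal (range g) := by
    intro h2
    exact absurd (Order.cof_le h2) (not_le.2 (Cardinal.mk_range_le.trans_lt h))
  unfold IsCofinal at h1
  push Not at h1
  obtain ⟨q, hq⟩ := h1
  exact ⟨q, fun i => hq _ ⟨i, rfl⟩⟩

theorem mk_Iic_lt' {M : Type} [LinearOrder M] [WellFoundedLT M] (hM : ℵ₀ ≤ #M) (h : (#M).ord = Ordinal.type (α := M) (· < ·)) (y : M) :
    #(Iic y) < #M := by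
  rw [← Iio_insert]
  refine Cardinal.mk_insert_le.trans_lt ?_
  exact Cardinal.add_lt_of_lt hM (Cardinal.mk_Iio_lt y h) (Cardinal.one_lt_aleph0.trans_le hM)

theorem ed_step {lam : Cardinal.{0}} {I : Type} (hlam : ℵ₀ ≤ lam) (hI : ℵ₀ < #I) (hreg : (#I).ord.cof = #I)
    (hD : Dom lam I)
    (hcov : ∀ M : Type, #I < #M → #M ≤ lam → (#M).ord.cof = #I →
      ∃ (Q : Type) (C : Q → Set M), #Q ≤ lam ∧ (∀ q, #(C q) < #M) ∧ ∀ g : I → M, ∃ q, ∀ i, g i ∈ C q) :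
    ∀ M : Type, #M ≤ lam → ED lam I M := by
  classical
  suffices H : ∀ μ : Cardinal.{0}, ∀ M : Type, #M = μ → #M ≤ lam → ED lam I M from fun M hM => H _ M rfl hM
  intro μ
  induction μ using WellFoundedLT.induction with
  | _ μ ih =>
  intro M hMμ hM
  by_cases h1 : #M ≤ #I
  · exact ed_base hlam hI.le (hreg.symm ▸ hI) h1 hD
  have h1 := not_le.1 h1
  by_cases h2 : (#M).ord.cof < #I
  · -- small cofinality
    obtain ⟨hl, hw, hM'⟩ := Cardinal.exists_ord_eq_type_lt M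
    rw [hM', Ordinal.cof_type] at h2
    obtain ⟨s, hs, hs'⟩ := Order.exists_cof_eq M
    rw [← hs'] at h2
    have hne : Nonempty M := Cardinal.mk_ne_zero_iff.1 (Cardinal.aleph0_pos.trans (hI.trans h1)).ne'
    have hne' : Nonempty s := by
      obtain ⟨x⟩ := hne
      obtain ⟨y, hy, _⟩ := hs x
      exact ⟨⟨y, hy⟩⟩
    obtain ⟨P, V, hP, hV, hc⟩ := capture hI.le h2.le hD
    intro G g hg
    have h3 : ∀ x : M, ∃ y : s, x ≤ y.1 := by
      intro x
      obtain ⟨y, hy, hxy⟩ := hs x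
      exact ⟨⟨y, hy⟩, hxy⟩
    choose l hl' using h3
    have h4 : ∀ a : G, ∃ p, ∀ i, l (g a i) ∈ V p i := fun a => hc _
    choose p hp using h4
    have h5 : ∀ p i, ∃ t : s, ∀ y ∈ V p i, y ≤ t := fun p i => (hV p i).bddAbove
    choose H hH using h5
    refine mk_le_of_fibers p hlam hP fun q => ?_
    obtain ⟨t, ht⟩ := Cardinal.infinite_pigeonhole (H q) hI.le (by rw [hreg]; exact h2)
    obtain ⟨e⟩ := Cardinal.eq.1 ht.symm
    have h6 : #(Iic t.1) < #M := mk_Iic_lt' (hI.trans h1).le hM' t.1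
    have h7 : ED lam (H q ⁻¹' {t}) (Iic t.1) := (ih _ (hMμ ▸ h6) _ rfl (h6.le.trans hM)).of_equiv e
    refine h7 {a // p a = q} (fun a i => ⟨g a.1 i.1, ?_⟩) fun a b hab => ?_
    · have h8 := hp a.1 i.1
      rw [a.2] at h8
      have h9 : H q i.1 = t := i.2
      have h10 := hH q i.1 _ h8
      rw [h9] at h10
      exact (hl' _).trans h10
    · rw [ht]
      refine lt_of_le_of_lt ?_ (hg a.1 b.1 fun h => hab (Subtype.ext h))
      rw [← Cardinal.mk_image_eq (s := {i : H q ⁻¹' {t} | _}) (Subtype.val_injective (p := fun i => i ∈ H q ⁻¹' {t}))]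
      refine Cardinal.mk_le_mk_of_subset ?_
      rintro _ ⟨i, hi, rfl⟩
      exact congrArg Subtype.val hi
  · have h3 : ∃ (Q : Type) (C : Q → Set M), #Q ≤ lam ∧ (∀ q, #(C q) < #M) ∧ ∀ g : I → M, ∃ q, ∀ i, g i ∈ C q := by
      rcases (not_lt.1 h2).eq_or_lt with h3 | h3
      · exact hcov M h1 hM h3.symm
      · obtain ⟨C, hC1, hC2⟩ := cov_of_cof h3
        exact ⟨M, C, hM, hC1, hC2⟩
    obtain ⟨Q, C, hQ, hC, hC'⟩ := h3
    intro G g hg
    have h3 : ∀ a : G, ∃ q, ∀ i, g a i ∈ C q := fun a => hC' _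
    choose p hp using h3
    refine mk_le_of_fibers p hlam hQ fun q => ?_
    have h4 : ED lam I (C q) := ih _ (hMμ ▸ hC q) _ rfl ((hC q).le.trans hM)
    refine h4 {a // p a = q} (fun a i => ⟨g a.1 i, ?_⟩) fun a b hab => ?_
    · have h5 := hp a.1 i
      rw [a.2] at h5
      exact h5
    · refine lt_of_le_of_lt ?_ (hg a.1 b.1 fun h => hab (Subtype.ext h))
      refine Cardinal.mk_le_mk_of_subset ?_
      intro t ht
      exact congrArg Subtype.val ht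

/-- Subsets as functions. -/
theorem two_power_le {lam : Cardinal.{0}} {I : Type} (hlam : ℵ₀ ≤ lam) (hI : ℵ₀ ≤ #I) (hIl : #I ≤ lam)
    (hs : ∀ κ < #I, (2 : Cardinal.{0}) ^ κ ≤ lam) (hED : ∀ M : Type, #M ≤ lam → ED lam I M) :
    (2 : Cardinal.{0}) ^ #I ≤ lam := by
  classical
  obtain ⟨hl, hw, hM'⟩ := Cardinal.exists_ord_eq_type_lt I
  have h1 : #(Σ i : I, Set (Iio i)) ≤ lam := by
    rw [Cardinal.mk_sigma]
    calc Cardinal.sum (fun i : I => #(Set (Iio i))) ≤ Cardinal.sum (fun _ : I => lam) := by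
          refine Cardinal.sum_le_sum _ _ fun i => ?_
          rw [Cardinal.mk_set]
          exact hs _ (Cardinal.mk_Iio_lt i hM')
      _ = #I * lam := by rw [Cardinal.sum_const']
      _ ≤ lam * lam := mul_le_mul_left hIl lam
      _ = lam := Cardinal.mul_eq_self hlam
  rw [← Cardinal.mk_set]
  refine hED _ h1 (Set I) (fun A i => ⟨i, {x | x.1 ∈ A}⟩) fun A B hAB => ?_
  obtain ⟨x, hx⟩ : ∃ x, ¬ (x ∈ A ↔ x ∈ B) := by
    by_contra h
    push Not at h
    exact hAB (Set.ext h)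
  have h2 : {i | (⟨i, {x | x.1 ∈ A}⟩ : Σ i : I, Set (Iio i)) = ⟨i, {x | x.1 ∈ B}⟩} ⊆ insert x (Iio x) := by
    intro i hi
    rw [Iio_insert, mem_Iic]
    by_contra h3
    have h4 : ({x | x.1 ∈ A} : Set (Iio i)) = {x | x.1 ∈ B} := by
      have h5 := Sigma.mk.inj hi
      exact eq_of_heq h5.2
    have h6 : (⟨x, not_le.1 h3⟩ : Iio i) ∈ ({x | x.1 ∈ A} : Set (Iio i)) ↔
        (⟨x, not_le.1 h3⟩ : Iio i) ∈ ({x | x.1 ∈ B} : Set (Iio i)) := by rw [h4]
    exact hx h6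
  refine (Cardinal.mk_le_mk_of_subset h2).trans_lt ?_
  refine Cardinal.mk_insert_le.trans_lt ?_
  exact Cardinal.add_lt_of_lt hI (Cardinal.mk_Iio_lt x hM') (Cardinal.one_lt_aleph0.trans_le hI)

/-- Singular cardinals. -/
theorem two_power_le_sing {I : Type} (hI : ℵ₀ < #I) (hc : (#I).ord.cof < #I)
    (hs : ∀ κ < #I, (2 : Cardinal.{0}) ^ κ ≤ 𝔠) : (2 : Cardinal.{0}) ^ #I ≤ 𝔠 := by
  classical
  obtain ⟨hl, hw, hI'⟩ := Cardinal.exists_ord_eq_type_lt I
  rw [hI', Ordinal.cof_type] at hc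
  obtain ⟨s, hs0, hs'⟩ := Order.exists_cof_eq I
  rw [← hs'] at hc
  rw [← Cardinal.mk_set]
  have h1 : #(Set I) ≤ #(∀ t : s, Set (Iic t.1)) := by
    refine Cardinal.mk_le_of_injective (f := fun A t => {x | x.1 ∈ A}) fun A B hAB => ?_
    ext x
    obtain ⟨y, hy, hxy⟩ := hs0 x
    have h2 : ({z | z.1 ∈ A} : Set (Iic y)) = {z | z.1 ∈ B} := congrFun hAB ⟨y, hy⟩
    have h3 : (⟨x, hxy⟩ : Iic y) ∈ ({z | z.1 ∈ A} : Set (Iic y)) ↔ (⟨x, hxy⟩ : Iic y) ∈ ({z | z.1 ∈ B} : Set (Iic y)) := by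
      rw [h2]
    exact h3
  refine h1.trans ?_
  rw [Cardinal.mk_pi]
  calc Cardinal.prod (fun t : s => #(Set (Iic t.1))) ≤ Cardinal.prod (fun _ : s => 𝔠) := by
        refine Cardinal.prod_le_prod _ _ fun t => ?_
        rw [Cardinal.mk_set]
        exact hs _ (mk_Iic_lt' hI.le hI' t.1)
    _ = 2 ^ (ℵ₀ * #s) := by
        rw [Cardinal.prod_const, Cardinal.lift_id, Cardinal.lift_id, ← Cardinal.two_power_aleph0, ← Cardinal.power_mul]
    _ ≤ 𝔠 := hs _ (Cardinal.mul_lt_of_lt hI.le hI hc)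

end NeverCard
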